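import Mathlib

/-!
# MP_fc1ccb_an: a greedy planar walk whose sign sequence has period 60

Put `lam = (-117 + 44 i) / 125 = ((3 + 4 i) / 5) ^ 3`, a point of the unit circle that is not a root
of unity, and let `alpha = arg lam / (2 pi)`, so `alpha` is irrational and `e ^ (2 pi i alpha) = lam`.
In the rotating frame `u_n = z_{n-1} lam ^ (-n)` the walk is `u_{n+1} = (u_n + eps_n) conj(lam)` with
`eps_n = - sign (Re u_n)`. The point `u_0 = (-12541116194038804876268734322006 +
6636998334811822813403065705658 i) / 17942353800421699429419244034637` has an orbit of period `60`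
(checked in exact integer arithmetic) whose sign word has least period `60`.
-/

set_option autoImplicit false

open Complex

namespace Pool.Agent.Results.MP_fc1ccb_an.PeriodSixty

/-- `(z, eps)` is the greedy walk for `alpha` started at `z 0`; here `z n` is the point `z_{n-1}` of
the problem. The sign `eps n` is the one that makes `|z_{n-1} + eps_n e^{2 pi i alpha n}|` strictly
smaller, so no tie occurs. -/
def Walk (α : ℝ) (z : ℕ → ℂ) (ε : ℕ → ℝ) : Prop :=
  ∀ n, (ε n = 1 ∨ ε n = -1) ∧ z (n + 1) = z n + ε n * exp (2 * Real.pi * I * α * n) ∧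
    ‖z n + ε n * exp (2 * Real.pi * I * α * n)‖ < ‖z n - ε n * exp (2 * Real.pi * I * α * n)‖

/-- `p` is an eventual period of `ε`. -/
def EvPer (ε : ℕ → ℝ) (p : ℕ) : Prop := 0 < p ∧ ∃ N, ∀ n, N ≤ n → ε (n + p) = ε n

/-- `p` is the period of the eventually periodic sequence `ε`: its least eventual period. -/
def IsPeriod (ε : ℕ → ℝ) (p : ℕ) : Prop := EvPer ε p ∧ ∀ q, EvPer ε q → p ≤ q

def msk : ℕ := 1152781858040314887
def Dn : ℤ := 17942353800421699429419244034637
def e (n : ℕ) : ℤ := if Nat.testBit msk (n % 60) then 1 else -1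

def st : ℕ → ℤ × ℤ
  | 0 => (-12541116194038804876268734322006, 6636998334811822813403065705658)
  | n + 1 => ((-117 * ((st n).1 + e n * Dn) + 44 * (st n).2) / 125,
      (-44 * ((st n).1 + e n * Dn) - 117 * (st n).2) / 125)

theorem core : ∀ n < 60, 125 * (st (n + 1)).1 = -117 * ((st n).1 + e n * Dn) + 44 * (st n).2 ∧
    125 * (st (n + 1)).2 = -44 * ((st n).1 + e n * Dn) - 117 * (st n).2 ∧ e n * (st n).1 < 0 := by
  decide +kernel

theorem st60 : st 60 = st 0 := by decide +kernel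

theorem e_add (n : ℕ) : e (n + 60) = e n := by simp [e]

theorem st_add (n : ℕ) : st (n + 60) = st n := by
  induction n with
  | zero => exact st60
  | succ n ih =>
    have h1 : st (n + 60 + 1) = ((-117 * ((st (n + 60)).1 + e (n + 60) * Dn) + 44 * (st (n + 60)).2) / 125,
      (-44 * ((st (n + 60)).1 + e (n + 60) * Dn) - 117 * (st (n + 60)).2) / 125) := by rw [st]
    have h2 : st (n + 1) = ((-117 * ((st n).1 + e n * Dn) + 44 * (st n).2) / 125,
      (-44 * ((st n).1 + e n * Dn) - 117 * (st n).2) / 125) := by rw [st]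
    rw [show n + 1 + 60 = (n + 60) + 1 by ring, h1, h2, ih, e_add]

theorem e_mul (n q : ℕ) : e (n + 60 * q) = e n := by
  induction q with
  | zero => rfl
  | succ q ih => rw [show n + 60 * (q + 1) = (n + 60 * q) + 60 by ring, e_add, ih]

theorem st_mul (n q : ℕ) : st (n + 60 * q) = st n := by
  induction q with
  | zero => rfl
  | succ q ih => rw [show n + 60 * (q + 1) = (n + 60 * q) + 60 by ring, st_add, ih]

theorem coreAll (n : ℕ) : 125 * (st (n + 1)).1 = -117 * ((st n).1 + e n * Dn) + 44 * (st n).2 ∧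
    125 * (st (n + 1)).2 = -44 * ((st n).1 + e n * Dn) - 117 * (st n).2 ∧ e n * (st n).1 < 0 := by
  have h := core (n % 60) (Nat.mod_lt _ (by norm_num))
  have h1 := st_mul (n % 60) (n / 60)
  have h2 := e_mul (n % 60) (n / 60)
  have h3 := st_mul (n % 60 + 1) (n / 60)
  rw [Nat.mod_add_div] at h1 h2
  rw [show n % 60 + 1 + 60 * (n / 60) = n + 1 by omega] at h3
  rw [h1, h2, h3]
  exact h

theorem e_cases (n : ℕ) : e n = 1 ∨ e n = -1 := by
  unfold e
  split
  · exact Or.inl rfl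
  · exact Or.inr rfl

/-- The point of the unit circle. -/
noncomputable def lam : ℂ := (-117 + 44 * I) / 125

noncomputable def lamc : ℂ := (-117 - 44 * I) / 125

theorem lam_mul : lam * lamc = 1 := by
  unfold lam lamc
  have : I ^ 2 = -1 := I_sq
  linear_combination (-(44 : ℂ) ^ 2 / 125 ^ 2) * this

theorem norm_lam : ‖lam‖ = 1 := by
  have h : ‖lam‖ ^ 2 = 1 := by
    rw [← Complex.normSq_eq_norm_sq]
    unfold lam
    rw [show ((-117 + 44 * I) / 125 : ℂ) = ((-117 / 125 : ℝ) : ℂ) + ((44 / 125 : ℝ) : ℂ) * I by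
      push_cast; ring, Complex.normSq_add_mul_I]
    norm_num
  nlinarith [norm_nonneg lam]

/-- Powers of `-117 + 44 i` are `3 + 4 i` modulo `5`. -/
theorem pow_mod (n : ℕ) : ∃ a b : ℤ, (-117 + 44 * I : ℂ) ^ (n + 1) = (5 * a + 3 : ℤ) + (5 * b + 4 : ℤ) * I := by
  induction n with
  | zero => exact ⟨-24, 8, by push_cast; ring⟩
  | succ n ih =>
    obtain ⟨a, b, h⟩ := ih
    refine ⟨-117 * a - 44 * b - 106, 44 * a - 117 * b - 68, ?_⟩
    rw [pow_succ, h]
    push_cast
    have : I ^ 2 = -1 := I_sq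
    linear_combination ((5 * (b : ℂ) + 4) * 44) * this

theorem lam_pow_ne (n : ℕ) : lam ^ (n + 1) ≠ 1 := by
  intro h
  obtain ⟨a, b, hab⟩ := pow_mod n
  unfold lam at h
  rw [div_pow, div_eq_one_iff_eq (pow_ne_zero _ (by norm_num)), hab] at h
  have h2 := congrArg Complex.im h
  have h3 : ((125 : ℂ) ^ (n + 1)).im = 0 := by
    have : ((125 : ℂ) ^ (n + 1)) = (((125 : ℝ) ^ (n + 1) : ℝ) : ℂ) := by push_cast; ring
    rw [this, Complex.ofReal_im]
  rw [h3] at h2
  simp at h2
  have h4 : (5 * b + 4 : ℤ) = 0 := by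
    have h5 : ((5 * b + 4 : ℤ) : ℝ) = 0 := by push_cast; linarith
    exact_mod_cast h5
  omega

/-- The angle. -/
noncomputable def al : ℝ := arg lam / (2 * Real.pi)

theorem exp_al : exp (2 * Real.pi * I * al) = lam := by
  have h : (2 * Real.pi * I * al : ℂ) = (arg lam : ℂ) * I := by
    unfold al
    push_cast
    have : (Real.pi : ℂ) ≠ 0 := by exact_mod_cast Real.pi_ne_zero
    field_simp
  rw [h]
  have h2 := Complex.norm_mul_exp_arg_mul_I lam
  rw [norm_lam] at h2
  simpa using h2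

theorem exp_al_n (n : ℕ) : exp (2 * Real.pi * I * al * n) = lam ^ n := by
  rw [← exp_al, ← Complex.exp_nat_mul]
  congr 1
  ring

theorem al_pos : 0 < al := by
  unfold al
  apply div_pos _ (by positivity)
  have h : 0 < lam.im := by
    unfold lam
    rw [show ((-117 + 44 * I) / 125 : ℂ) = ((-117 / 125 : ℝ) : ℂ) + ((44 / 125 : ℝ) : ℂ) * I by
      push_cast; ring]
    simp
  have h0 : 0 ≤ arg lam := Complex.arg_nonneg_iff.mpr h.le
  rcases h0.lt_or_eq with h1 | h1
  · exact h1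
  · exfalso
    have := (Complex.arg_eq_zero_iff.mp h1.symm).2
    rw [this] at h
    exact lt_irrefl _ h

theorem al_irr : Irrational al := by
  rintro ⟨q, hq⟩
  have hd : 0 < q.den := q.den_pos
  obtain ⟨m, hm⟩ : ∃ m, q.den = m + 1 := ⟨q.den - 1, by omega⟩
  apply lam_pow_ne m
  rw [← hm, ← exp_al_n, ← hq]
  rw [show (2 * Real.pi * I * ((q : ℝ) : ℂ) * (q.den : ℂ) : ℂ) = (q.num : ℂ) * (2 * Real.pi * I) by
    have h1 : ((q : ℝ) : ℂ) * (q.den : ℂ) = (q.num : ℂ) := by
      have h2 : (q : ℚ) * (q.den : ℚ) = (q.num : ℚ) := Rat.mul_den_eq_num q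
      have h3 : ((q : ℝ) : ℂ) = ((q : ℚ) : ℂ) := by push_cast; rfl
      rw [h3]
      exact_mod_cast h2
    linear_combination (2 * Real.pi * I) * h1]
  exact Complex.exp_int_mul_two_pi_mul_I q.num

/-- The orbit in the rotating frame. -/
noncomputable def u (n : ℕ) : ℂ := (((st n).1 : ℂ) + ((st n).2 : ℂ) * I) / (Dn : ℂ)

theorem Dn_ne : (Dn : ℂ) ≠ 0 := by
  have : Dn ≠ 0 := by decide
  exact_mod_cast this

theorem u_succ (n : ℕ) : u (n + 1) = (u n + (e n : ℂ)) * lamc := by
  obtain ⟨h1, h2, -⟩ := coreAll n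
  have h1' : (125 : ℂ) * ((st (n + 1)).1 : ℂ) =
      -117 * (((st n).1 : ℂ) + (e n : ℂ) * (Dn : ℂ)) + 44 * ((st n).2 : ℂ) := by exact_mod_cast h1
  have h2' : (125 : ℂ) * ((st (n + 1)).2 : ℂ) =
      -44 * (((st n).1 : ℂ) + (e n : ℂ) * (Dn : ℂ)) - 117 * ((st n).2 : ℂ) := by exact_mod_cast h2
  have hI : I ^ 2 = -1 := I_sq
  have hD := Dn_ne
  unfold u lamc
  field_simp
  linear_combination h1' + I * h2' + (44 * ((st n).2 : ℂ)) * hI

theorem u_re (n : ℕ) : (e n : ℝ) * (u n).re < 0 := by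
  obtain ⟨-, -, h3⟩ := coreAll n
  have hD : (0 : ℝ) < (Dn : ℝ) := by
    have : (0 : ℤ) < Dn := by decide
    exact_mod_cast this
  have hre : (u n).re = ((st n).1 : ℝ) / (Dn : ℝ) := by
    unfold u
    rw [show ((((st n).1 : ℂ) + ((st n).2 : ℂ) * I) / (Dn : ℂ)) =
      ((((st n).1 : ℝ) / (Dn : ℝ) : ℝ) : ℂ) + ((((st n).2 : ℝ) / (Dn : ℝ) : ℝ) : ℂ) * I by
        push_cast; ring]
    simp
  rw [hre, ← mul_div_assoc]
  apply div_neg_of_neg_of_pos _ hD
  exact_mod_cast h3

/-- The walk. -/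
noncomputable def z (n : ℕ) : ℂ := u n * lam ^ n

theorem norm_lt {w : ℂ} {s : ℝ} (hs : s * w.re < 0) : ‖w + s‖ < ‖w - s‖ := by
  have h1 : ‖w + s‖ ^ 2 < ‖w - s‖ ^ 2 := by
    rw [← Complex.normSq_eq_norm_sq, ← Complex.normSq_eq_norm_sq, Complex.normSq_apply,
      Complex.normSq_apply]
    simp
    nlinarith
  exact lt_of_pow_lt_pow_left₀ 2 (norm_nonneg _) h1

theorem walk : Walk al z (fun n => (e n : ℝ)) := by
  intro n
  simp only
  rw [exp_al_n]
  have hl := lam_mul
  refine ⟨?_, ?_, ?_⟩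
  · rcases e_cases n with h | h <;> rw [h] <;> norm_num
  · unfold z
    rw [u_succ, pow_succ]
    push_cast
    linear_combination ((u n + (e n : ℂ)) * lam ^ n) * hl
  · have h1 : z n + ((e n : ℝ) : ℂ) * lam ^ n = (u n + ((e n : ℝ) : ℂ)) * lam ^ n := by
      unfold z; ring
    have h2 : z n - ((e n : ℝ) : ℂ) * lam ^ n = (u n - ((e n : ℝ) : ℂ)) * lam ^ n := by
      unfold z; ring
    rw [h1, h2, norm_mul, norm_mul, norm_pow, norm_lam, one_pow, mul_one, mul_one]
    exact norm_lt (u_re n)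

theorem noper0 : ∀ q < 60, 0 < q → ∃ i < 60, e (i + q) ≠ e i := by decide +kernel

theorem noper (q : ℕ) (h : 0 < q) (h2 : q < 60) : ∃ i < 60, e (i + q) ≠ e i := noper0 q h2 h

theorem isPeriod : IsPeriod (fun n => (e n : ℝ)) 60 := by
  refine ⟨⟨by norm_num, 0, fun n _ => ?_⟩, ?_⟩
  · simp only
    rw [e_add]
  · rintro q ⟨hq, N, hN⟩
    by_contra hlt
    push Not at hlt
    obtain ⟨i, -, hi⟩ := noper q hq hlt
    apply hi
    have h := hN (i + 60 * N) (by omega)
    simp only at h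
    have h' : e (i + 60 * N + q) = e (i + 60 * N) := by exact_mod_cast h
    rw [show i + 60 * N + q = (i + q) + 60 * N by ring, e_mul, e_mul] at h'
    exact h'

/-- There are an irrational `α > 0` and a starting point for which no tie occurs and whose sign
sequence is (eventually) periodic with period `60`, a multiple of `4`. -/
theorem result : ∃ (α : ℝ) (z : ℕ → ℂ) (ε : ℕ → ℝ), Irrational α ∧ 0 < α ∧ Walk α z ε ∧
    IsPeriod ε 60 ∧ 4 ∣ 60 :=
  ⟨al, z, fun n => (e n : ℝ), al_irr, al_pos, walk, isPeriod, by norm_num⟩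

end Pool.Agent.Results.MP_fc1ccb_an.PeriodSixty
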